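import Mathlib
import Pool.Agent.H108R3.Had.Defs

/-!
# Sign matrices in which every row is orthogonal to all but two of the others
-/

set_option autoImplicit false

namespace Pool.Agent.Y342.PH

open Finset Matrix Pool.Agent.H108R3.Had

/-- From Hadamard matrices of orders `a` and `b`, `b ≤ a ≤ 2 * b`: a sign matrix of order `a + b` in
which every row is orthogonal to all but at most two of the other rows. -/
theorem near {a b : ℕ} (ha : HasHad a) (hb : HasHad b) (hab : b ≤ a) (hab2 : a ≤ 2 * b) :
    ∃ M : Matrix (Fin (a + b)) (Fin (a + b)) ℤ, (∀ i j, M i j = 1 ∨ M i j = -1) ∧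
      ∀ i, (univ.filter (fun j => j ≠ i ∧ (M * M.transpose) i j ≠ 0)).card ≤ 2 := by
  rcases Nat.eq_zero_or_pos b with h0 | hbp
  · have ha0 : a = 0 := by omega
    subst h0
    subst ha0
    exact ⟨Matrix.of fun _ _ => 1, fun _ _ => Or.inl rfl, fun i => i.elim0⟩
  obtain ⟨A, hA, hAA⟩ := ha
  obtain ⟨B, hB, hBB⟩ := hb
  -- letters
  let α : Fin (a + b) → Fin a := fun i => if h : i.val < a then ⟨i.val, h⟩ else ⟨i.val - a, by omega⟩
  let β : Fin (a + b) → Fin b := fun i => if i.val < a then ⟨i.val % b, Nat.mod_lt _ hbp⟩
    else ⟨(i.val - a) % b, Nat.mod_lt _ hbp⟩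
  let σ : Fin (a + b) → ℤ := fun i => if i.val < a then 1 else -1
  have hσ : ∀ i, σ i = 1 ∨ σ i = -1 := by
    intro i
    by_cases h : i.val < a
    · left; simp only [σ, if_pos h]
    · right; simp only [σ, if_neg h]
  have hαβ : ∀ i j, α i = α j → β i = β j := by
    intro i j h
    have h' : (α i).val = (α j).val := congrArg Fin.val h
    apply Fin.ext
    simp only [α, β] at h' ⊢
    split_ifs at h' ⊢ <;> simp_all
  have hβval : ∀ i : Fin (a + b), i.val = (β i).val ∨ i.val = (β i).val + b ∨
      i.val = (β i).val + a := by
    intro i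
    have hi := i.isLt
    by_cases h : i.val < a
    · have e : (β i).val = i.val % b := by simp only [β, if_pos h]
      rw [e]
      have h1 := Nat.div_add_mod i.val b
      have h2 := Nat.mod_lt i.val hbp
      have h3 : i.val / b < 2 := by
        rw [Nat.div_lt_iff_lt_mul hbp]
        omega
      interval_cases h4 : i.val / b
      · left; omega
      · right; left; omega
    · have e : (β i).val = (i.val - a) % b := by simp only [β, if_neg h]
      rw [e, Nat.mod_eq_of_lt (by omega)]
      right; right; omega
  let M : Matrix (Fin (a + b)) (Fin (a + b)) ℤ := Matrix.of fun i j =>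
    Fin.addCases (fun j => A (α i) j) (fun j => σ i * B (β i) j) j
  have hMM : ∀ i j, (M * M.transpose) i j = (if α i = α j then (a : ℤ) else 0) +
      σ i * σ j * (if β i = β j then (b : ℤ) else 0) := by
    intro i j
    rw [Matrix.mul_apply, Fin.sum_univ_add]
    simp only [M, Matrix.transpose_apply, Matrix.of_apply, Fin.addCases_left, Fin.addCases_right]
    have h1 := congrFun (congrFun hAA (α i)) (α j)
    have h2 := congrFun (congrFun hBB (β i)) (β j)
    rw [Matrix.mul_apply] at h1 h2
    simp only [Matrix.transpose_apply, Matrix.smul_apply, Matrix.one_apply, smul_eq_mul,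
      mul_ite, mul_one, mul_zero] at h1 h2
    rw [h1]
    congr 1
    rw [← h2, Finset.mul_sum]
    apply Finset.sum_congr rfl
    intro k _
    ring
  refine ⟨M, ?_, ?_⟩
  · intro i j
    refine Fin.addCases (fun j => ?_) (fun j => ?_) j
    · simp only [M, Matrix.of_apply, Fin.addCases_left]; exact hA _ _
    · simp only [M, Matrix.of_apply, Fin.addCases_right]
      rcases hσ i with h | h <;> rcases hB (β i) j with h' | h' <;> simp [h, h']
  · intro i
    have hsub : univ.filter (fun j => j ≠ i ∧ (M * M.transpose) i j ≠ 0) ⊆
        (univ.filter (fun j => β j = β i)).erase i := by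
      intro j hj
      rw [mem_filter] at hj
      rw [mem_erase, mem_filter]
      refine ⟨hj.2.1, mem_univ _, ?_⟩
      by_contra hne
      apply hj.2.2
      have h1 : ¬ α i = α j := fun h => hne (hαβ i j h).symm
      rw [hMM, if_neg h1, if_neg (fun h => hne h.symm)]
      simp
    refine (card_le_card hsub).trans ?_
    rw [card_erase_of_mem (by simp)]
    have hcard : (univ.filter (fun j => β j = β i)).card ≤ 3 := by
      have h1 : ((univ.filter (fun j => β j = β i)).image Fin.val) ⊆
          {(β i).val, (β i).val + b, (β i).val + a} := by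
        intro v hv
        rw [mem_image] at hv
        obtain ⟨j, hj, rfl⟩ := hv
        rw [mem_filter] at hj
        have h2 := hβval j
        rw [hj.2] at h2
        simp only [mem_insert, mem_singleton]
        exact h2
      rw [← card_image_of_injective _ Fin.val_injective]
      exact (card_le_card h1).trans card_le_three
    omega

end Pool.Agent.Y342.PH
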