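import Pool.Agent.Y342.PH.Main
import Pool.Agent.Y342.PH.Near

/-!
# Half Hadamard matrices and nearly Hadamard matrices: assembly
-/

set_option autoImplicit false

namespace Pool.Agent.Y342.PH

open Finset Pool.Agent.H108R3.Had

theorem half (A : ℕ) : ∃ n₀ : ℕ, ∀ n : ℕ, n₀ ≤ n → 4 ∣ n → ∃ r : ℕ,
    (n : ℝ) / 2 - n / Real.log n ^ A ≤ r ∧
    ∃ M : Matrix (Fin r) (Fin n) ℤ, (∀ i j, M i j = 1 ∨ M i j = -1) ∧
      M * M.transpose = (n : ℤ) • (1 : Matrix (Fin r) (Fin r) ℤ) := by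
  obtain ⟨n₀, h⟩ := two_orders A
  refine ⟨max n₀ 3, fun n hn h4 => ?_⟩
  have hn1 : n₀ ≤ n := (le_max_left _ _).trans hn
  have hn3 : 3 ≤ n := (le_max_right _ _).trans hn
  have hn3' : (3 : ℝ) ≤ n := by exact_mod_cast hn3
  obtain ⟨a, b, hab, hba, hd, ha, hb⟩ := h n hn1 h4
  have hL : 0 < Real.log n := Real.log_pos (by linarith)
  refine ⟨b, ?_, ?_⟩
  · have e : (a : ℝ) + b = n := by exact_mod_cast hab
    have h0 : 0 ≤ (n : ℝ) / Real.log n ^ A := by positivity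
    linarith
  · subst hab
    exact Pool.Agent.W69.HH.side ha hb hba

theorem nearly : ∃ n₀ : ℕ, ∀ n : ℕ, n₀ ≤ n → 4 ∣ n →
    ∃ M : Matrix (Fin n) (Fin n) ℤ, (∀ i j, M i j = 1 ∨ M i j = -1) ∧
      ∀ i, (univ.filter (fun j => j ≠ i ∧ (M * M.transpose) i j ≠ 0)).card ≤ 2 := by
  obtain ⟨n₀, h⟩ := two_orders 1
  refine ⟨max n₀ ⌈Real.exp 3⌉₊, fun n hn h4 => ?_⟩
  have hn1 : n₀ ≤ n := (le_max_left _ _).trans hn
  have hn2 : Real.exp 3 ≤ n := (Nat.le_ceil _).trans (by exact_mod_cast (le_max_right _ _).trans hn)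
  have hnp : (0 : ℝ) < n := lt_of_lt_of_le (Real.exp_pos _) hn2
  have hL : 3 ≤ Real.log n := by rw [Real.le_log_iff_exp_le hnp]; exact hn2
  obtain ⟨a, b, hab, hba, hd, ha, hb⟩ := h n hn1 h4
  have h2 : (n : ℝ) / Real.log n ^ 1 ≤ n / 3 := by
    rw [pow_one]
    exact div_le_div_of_nonneg_left hnp.le (by norm_num) hL
  have h3 : a ≤ 2 * b := by
    have e : (a : ℝ) + b = n := by exact_mod_cast hab
    have : (a : ℝ) ≤ 2 * b := by linarith
    exact_mod_cast this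
  subst hab
  exact near ha hb hba h3

end Pool.Agent.Y342.PH
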