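import Pool.Agent.Y342.PH.Prog
import Pool.Agent.W69.HH.Paley
import Pool.Agent.W69.MD.Iter

/-!
# Sums of two nearly equal orders of Hadamard matrices
-/

set_option autoImplicit false

open Finset Filter Topology

namespace Pool.Agent.Y342.PH

open Pool.Agent.W851.Had Pool.Agent.H108R3.Had Pool.Agent.W69.MD

/-- the exponent `C ^ (1 + log* n)` is tiny -/
theorem small_exp (C : ℕ) (hC : 2 ≤ C) : ∃ N : ℕ, ∀ n : ℕ, N ≤ n → ∃ k : ℕ, n ≤ tow k ∧
    (2 : ℝ) ^ (C ^ (k + 1)) ≤ Real.log (Real.log n) := by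
  obtain ⟨a₀, ha₀⟩ := exp_le_tow C 6 hC
  refine ⟨tow (a₀ + 2 * 2) + 1, fun n hn => ?_⟩
  have hex : ∃ k, n ≤ tow k := ⟨n, (lt_tow n).le⟩
  obtain ⟨k, hk1, hk2⟩ : ∃ k, n ≤ tow k ∧ ∀ i < k, tow i < n :=
    ⟨Nat.find hex, Nat.find_spec hex, fun i hi => not_le.1 (Nat.find_min hex hi)⟩
  have hka : a₀ + 2 * 2 < k := by
    by_contra hcon
    push Not at hcon
    have := hk1.trans (tow_mono hcon)
    omega
  obtain ⟨a, ha⟩ : ∃ a, k = a + 2 * 2 + 1 := ⟨k - (2 * 2 + 1), by omega⟩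
  have haa : a₀ ≤ a := by omega
  have h1 : (tow (a + 2 * 2) : ℝ) ≤ n := by
    exact_mod_cast (hk2 (a + 2 * 2) (by omega)).le
  have h2 := iter_log_tow 2 a n h1
  have h3 := ha₀ a haa
  refine ⟨k, hk1, ?_⟩
  have e : k + 1 = a + 6 := by omega
  rw [e]
  have h4 : (2 : ℝ) ^ (C ^ (a + 6)) ≤ Real.exp (2 * 2 ^ (C ^ (a + 6))) := by
    have := Real.add_one_le_exp (2 * (2 : ℝ) ^ (C ^ (a + 6)))
    have : (0 : ℝ) < 2 ^ (C ^ (a + 6)) := by positivity
    linarith
  refine h4.trans (h3.trans ?_)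
  simpa using h2

theorem two_orders (A : ℕ) : ∃ n₀ : ℕ, ∀ n : ℕ, n₀ ≤ n → 4 ∣ n → ∃ a b : ℕ, a + b = n ∧ b ≤ a ∧
    (a : ℝ) - b ≤ n / Real.log n ^ A ∧ HasHad a ∧ HasHad b := by
  obtain ⟨C, hC, hhad⟩ := main_had
  obtain ⟨N, hN⟩ := small_exp C hC
  obtain ⟨Q₀, hQ₀⟩ := exists_prime (A + 2)
  refine ⟨max (max N (4 * Q₀)) (max 16 ⌈Real.exp (2 ^ (A + 2) + 32)⌉₊), fun n hn h4 => ?_⟩
  have hn1 : N ≤ n := ((le_max_left _ _).trans (le_max_left _ _)).trans hn
  have hn2 : 4 * Q₀ ≤ n := ((le_max_right _ _).trans (le_max_left _ _)).trans hn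
  have hn3 : 16 ≤ n := ((le_max_left _ _).trans (le_max_right _ _)).trans hn
  have hn4 : Real.exp (2 ^ (A + 2) + 32) ≤ n := (Nat.le_ceil _).trans
    (by exact_mod_cast ((le_max_right _ _).trans (le_max_right _ _)).trans hn)
  have hnp : (0 : ℝ) < n := lt_of_lt_of_le (Real.exp_pos _) hn4
  set L := Real.log n with hL
  have hL1 : 2 ^ (A + 2) + 32 ≤ L := by rw [hL, Real.le_log_iff_exp_le hnp]; exact hn4
  have h2A : (0 : ℝ) < 2 ^ (A + 2) := by positivity
  have hLp : 0 < L := by linarith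
  obtain ⟨k, hk, hT⟩ := hN n hn1
  set T := C ^ (k + 1) with hTdef
  have hT2 : 2 ≤ T := by
    calc 2 ≤ C := hC
      _ = C ^ 1 := (pow_one C).symm
      _ ≤ C ^ (k + 1) := Nat.pow_le_pow_right (by omega) (by omega)
  -- the window
  have hbig : 32 ≤ (n : ℝ) := by
    have := Real.add_one_le_exp ((2 : ℝ) ^ (A + 2) + 32)
    linarith
  set K : ℕ := ⌊(n : ℝ) / (2 * L ^ (A + 1))⌋₊ + 1 with hK
  have hK1 : (n : ℝ) / (2 * L ^ (A + 1)) ≤ K := by
    rw [hK]; push_cast; exact (Nat.lt_floor_add_one _).le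
  have hK2 : (K : ℝ) ≤ n / (2 * L ^ (A + 1)) + 1 := by
    rw [hK]; push_cast
    have := Nat.floor_le (show 0 ≤ (n : ℝ) / (2 * L ^ (A + 1)) by positivity)
    linarith
  have hLA : 32 ≤ L ^ (A + 1) := by
    calc (32 : ℝ) ≤ L := by linarith
      _ = L ^ 1 := (pow_one L).symm
      _ ≤ L ^ (A + 1) := pow_le_pow_right₀ (by linarith) (by omega)
  have hK3 : (K : ℝ) ≤ n / 64 + 1 := by
    refine hK2.trans ?_
    have : (n : ℝ) / (2 * L ^ (A + 1)) ≤ n / 64 := by
      apply div_le_div_of_nonneg_left hnp.le (by norm_num) (by linarith)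
    linarith
  obtain ⟨m, hm⟩ := h4
  have hm2 : (n : ℝ) = 4 * m := by rw [hm]; push_cast; ring
  have hKm : K + 1 ≤ m := by
    have : (K : ℝ) + 1 ≤ m := by linarith
    exact_mod_cast this
  obtain ⟨Q, hQ⟩ : ∃ Q, Q = 2 * m - 1 - K := ⟨_, rfl⟩
  have hQm : m ≤ Q := by omega
  have hQr : (Q : ℝ) = 2 * m - 1 - K := by
    have : Q + 1 + K = 2 * m := by omega
    have h' : (Q : ℝ) + 1 + K = 2 * m := by exact_mod_cast this
    linarith
  have hQp : (0 : ℝ) < Q := by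
    have : 0 < Q := by omega
    exact_mod_cast this
  have hQL : L / 2 ≤ Real.log Q := by
    have h1 : Real.log (n / 4) ≤ Real.log Q := by
      apply Real.log_le_log (by positivity)
      have : (m : ℝ) ≤ Q := by exact_mod_cast hQm
      linarith
    rw [Real.log_div hnp.ne' (by norm_num)] at h1
    have h2 : Real.log 4 ≤ 4 - 1 := Real.log_le_sub_one_of_pos (by norm_num)
    linarith
  have hprime := hQ₀ Q (by omega) (2 * m - 1) ?_ (by omega) T ?_ (4 * m - 1) ?_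
  · obtain ⟨p, hp, hQp', hpt, hpm⟩ := hprime
    haveI : Fact p.Prime := ⟨hp⟩
    have hdvd : 2 ^ T ∣ (4 * m - 1) - p := (Nat.modEq_iff_dvd' (by omega)).1 hpm
    obtain ⟨q, hq⟩ := hdvd
    have hp4 : p % 4 = 3 := by
      have h1 : p ≡ 4 * m - 1 [MOD 4] := by
        apply Nat.ModEq.of_dvd _ hpm
        calc 4 = 2 ^ 2 := rfl
          _ ∣ 2 ^ T := pow_dvd_pow 2 hT2
      have h2 : p % 4 = (4 * m - 1) % 4 := h1
      omega
    refine ⟨2 ^ T * q, p + 1, by omega, by omega, ?_, ?_, Pool.Agent.W69.HH.paley hp4⟩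
    · have h1 : (2 ^ T * q : ℕ) + (p + 1) = n := by omega
      have h2 : ((2 ^ T * q : ℕ) : ℝ) + ((p + 1 : ℕ) : ℝ) = n := by exact_mod_cast h1
      have h3 : (Q : ℝ) + 2 ≤ ((p + 1 : ℕ) : ℝ) := by exact_mod_cast (by omega : Q + 2 ≤ p + 1)
      have h4 : (n : ℝ) / L ^ (A + 1) ≤ n / L ^ A := by
        apply div_le_div_of_nonneg_left hnp.le (by positivity)
        exact pow_le_pow_right₀ (by linarith) (by omega)
      have h5 : (n : ℝ) / L ^ (A + 1) = 2 * (n / (2 * L ^ (A + 1))) := by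
        field_simp
      have h6 : ((2 ^ T * q : ℕ) : ℝ) - ((p + 1 : ℕ) : ℝ) ≤ n / L ^ (A + 1) := by
        rw [h5]
        linarith
      exact h6.trans h4
    · refine hhad k q T ?_ le_rfl
      refine le_trans ?_ hk
      have : 1 * q ≤ 2 ^ T * q := Nat.mul_le_mul_right q Nat.one_le_two_pow
      omega
  · -- the window is long enough
    have h1 : (Q : ℝ) / Real.log Q ^ (A + 2) ≤ K := by
      refine le_trans ?_ hK1
      have h2 : (L / 2) ^ (A + 2) ≤ Real.log Q ^ (A + 2) := pow_le_pow_left₀ (by positivity) hQL _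
      have h3 : (Q : ℝ) ≤ n / 2 := by
        rw [hQr, hm2]
        have : (0 : ℝ) ≤ K := Nat.cast_nonneg _
        linarith
      calc (Q : ℝ) / Real.log Q ^ (A + 2) ≤ (n / 2) / (L / 2) ^ (A + 2) :=
            div_le_div₀ (by positivity) h3 (by positivity) h2
        _ = (n / (2 * L ^ (A + 1))) * (2 ^ (A + 2) / L) := by
            rw [div_pow, pow_succ L (A + 1)]
            field_simp
        _ ≤ (n / (2 * L ^ (A + 1))) * 1 := by
            apply mul_le_mul_of_nonneg_left _ (by positivity)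
            rw [div_le_one hLp]
            linarith
        _ = _ := mul_one _
    have h2 : ((2 * m - 1 : ℕ) : ℝ) = 2 * m - 1 := by
      rw [Nat.cast_sub (by omega)]; push_cast; ring
    rw [h2]
    linarith
  · refine hT.trans (le_trans ?_ hQL)
    have h1 := Real.log_le_sub_one_of_pos (show 0 < L / 2 by positivity)
    rw [Real.log_div hLp.ne' (by norm_num)] at h1
    have h2 : Real.log 2 ≤ 2 - 1 := Real.log_le_sub_one_of_pos (by norm_num)
    linarith
  · rw [Nat.odd_iff]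
    omega

end Pool.Agent.Y342.PH
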