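import Pool.Agent.W762.EC.Swc

/-!
# Primes in short progressions modulo small powers of two

For every `A` and all large `Q`: if `2 ^ T ≤ log Q`, `a` is odd and
`Q + Q / (log Q) ^ A ≤ t ≤ 2 * Q`, there is a prime `p` with `Q < p ≤ t` and `p ≡ a` modulo `2 ^ T`.
-/

set_option autoImplicit false

open Finset Filter Topology

namespace Pool.Agent.Y342.PH

open Pool.Agent.H262R3.Lk.SWQ Pool.Agent.W762.EC

/-- a nontrivial character modulo a power of two and the primitive character that induces it agree at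
every natural number -/
theorem prim_apply (T : ℕ) (χ : DirichletCharacter ℂ (2 ^ T)) (hχ : χ ≠ 1) (n : ℕ) :
    χ.primitiveCharacter (n : ZMod χ.conductor) = χ (n : ZMod (2 ^ T)) := by
  have hc : χ.conductor ≠ 1 := fun h =>
    hχ ((DirichletCharacter.eq_one_iff_conductor_eq_one (χ := χ)).2 h)
  have hd : χ.conductor ∣ 2 ^ T := χ.conductor_dvd_level
  obtain ⟨k, hk, hk2⟩ := (Nat.dvd_prime_pow Nat.prime_two).1 hd
  have hk0 : k ≠ 0 := by
    rintro rfl
    exact hc (by rw [hk2, pow_zero])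
  rcases Nat.even_or_odd n with he | ho
  · have h1 : ¬ IsUnit (n : ZMod χ.conductor) := by
      rw [ZMod.isUnit_iff_coprime, hk2]
      intro h
      have h2 : Nat.Coprime n 2 := Nat.Coprime.coprime_dvd_right (dvd_pow_self 2 hk0) h
      rw [Nat.coprime_two_right] at h2
      exact (Nat.not_even_iff_odd.2 h2) he
    have h2 : ¬ IsUnit (n : ZMod (2 ^ T)) := by
      rw [ZMod.isUnit_iff_coprime]
      intro h
      have h2 : Nat.Coprime n 2 := Nat.Coprime.coprime_dvd_right (dvd_pow_self 2 (by omega)) h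
      rw [Nat.coprime_two_right] at h2
      exact (Nat.not_even_iff_odd.2 h2) he
    rw [MulChar.map_nonunit _ h1, MulChar.map_nonunit _ h2]
  · have h1 : IsCoprime (n : ℤ) ((2 ^ T : ℕ) : ℤ) := by
      rw [Nat.isCoprime_iff_coprime]
      exact Nat.Coprime.pow_right _ (Nat.coprime_two_right.2 ho)
    have h2 := χ.primitiveCharacter_apply_of_isCoprime h1
    simpa using h2

theorem SS_prim (T : ℕ) (χ : DirichletCharacter ℂ (2 ^ T)) (hχ : χ ≠ 1) (n : ℕ) :
    SS χ.primitiveCharacter n = SS χ n := by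
  unfold SS Pool.Agent.H262R3.Lk.SWQ.av
  apply sum_congr rfl
  intro k _
  rw [prim_apply T χ hχ k]

theorem SS_triv (T Q t : ℕ) (hQ : 2 ≤ Q) (h : Q ≤ t) :
    SS (1 : DirichletCharacter ℂ (2 ^ T)) t - SS (1 : DirichletCharacter ℂ (2 ^ T)) Q =
      ((Chebyshev.theta (t : ℝ) - Chebyshev.theta (Q : ℝ) : ℝ) : ℂ) := by
  rw [SS_sub _ Q t h, theta_nat, theta_nat, ← sum_Ioc_consecutive Pool.Agent.W762.EC.lp (Nat.zero_le Q) h,
    add_sub_cancel_left]
  push_cast
  apply sum_congr rfl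
  intro m hm
  rw [mem_Ioc] at hm
  unfold Pool.Agent.H262R3.Lk.SWQ.av Pool.Agent.W762.EC.lp
  by_cases hp : m.Prime
  · have hodd : Nat.Coprime m (2 ^ T) := by
      apply Nat.Coprime.pow_right
      rw [Nat.coprime_two_right]
      exact hp.odd_of_ne_two (by omega)
    rw [if_pos hp, if_pos hp, MulChar.one_apply ((ZMod.isUnit_iff_coprime _ _).2 hodd), one_mul]
  · rw [if_neg hp, if_neg hp]
    simp

/-- Primes in short progressions modulo small powers of two. -/
theorem exists_prime (A : ℕ) : ∃ Q₀ : ℕ, ∀ Q : ℕ, Q₀ ≤ Q → ∀ t : ℕ, (Q : ℝ) + Q / Real.log Q ^ A ≤ t →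
    t ≤ 2 * Q → ∀ T : ℕ, (2 : ℝ) ^ T ≤ Real.log Q → ∀ a : ℕ, Odd a →
      ∃ p : ℕ, p.Prime ∧ Q < p ∧ p ≤ t ∧ p ≡ a [MOD 2 ^ T] := by
  obtain ⟨n₁, h1⟩ := SS_diff (A + 2) 1
  obtain ⟨n₂, h2⟩ := theta_bound (A + 2)
  set K : ℝ := 37 + 16 * 8 ^ (A + 2 + 1) with hK
  have hK0 : 0 < K := by positivity
  refine ⟨max (max n₁ n₂) (max 2 ⌈Real.exp (36 + 3 * K + 2)⌉₊), fun Q hQ t ht ht2 T hT a ha => ?_⟩
  have hQ1 : n₁ ≤ Q := ((le_max_left _ _).trans (le_max_left _ _)).trans hQ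
  have hQ2 : n₂ ≤ Q := ((le_max_right _ _).trans (le_max_left _ _)).trans hQ
  have hQ3 : 2 ≤ Q := ((le_max_left _ _).trans (le_max_right _ _)).trans hQ
  have hQ4 : Real.exp (36 + 3 * K + 2) ≤ Q := (Nat.le_ceil _).trans
    (by exact_mod_cast ((le_max_right _ _).trans (le_max_right _ _)).trans hQ)
  have hQp : (0 : ℝ) < Q := lt_of_lt_of_le (Real.exp_pos _) hQ4
  set L := Real.log Q with hL
  have hL0 : 36 + 3 * K + 2 ≤ L := by rw [hL, Real.le_log_iff_exp_le hQp]; exact hQ4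
  have hLp : 0 < L := by linarith
  have hQt : Q ≤ t := by
    have : (Q : ℝ) ≤ t := le_trans (by
      have : 0 ≤ (Q : ℝ) / L ^ A := by positivity
      linarith) ht
    exact_mod_cast this
  have hQt' : (Q : ℝ) ≤ t := by exact_mod_cast hQt
  have ht2' : (t : ℝ) ≤ 2 * Q := by exact_mod_cast ht2
  by_contra hcon
  push Not at hcon
  -- the modulus
  have hau : IsUnit ((a : ℕ) : ZMod (2 ^ T)) := by
    rw [ZMod.isUnit_iff_coprime]
    exact Nat.Coprime.pow_right _ (Nat.coprime_two_right.2 ha)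
  -- orthogonality
  have hsum : ∑ χ : DirichletCharacter ℂ (2 ^ T), χ ((a : ZMod (2 ^ T))⁻¹) * (SS χ t - SS χ Q) = 0 := by
    have e1 : ∀ χ : DirichletCharacter ℂ (2 ^ T), χ ((a : ZMod (2 ^ T))⁻¹) * (SS χ t - SS χ Q) =
        ∑ m ∈ Ioc Q t, χ ((a : ZMod (2 ^ T))⁻¹) * Pool.Agent.H262R3.Lk.SWQ.av χ m := by
      intro χ
      rw [SS_sub χ Q t hQt, mul_sum]
    rw [sum_congr rfl fun χ _ => e1 χ, sum_comm]
    apply sum_eq_zero
    intro m hm
    rw [mem_Ioc] at hm
    unfold Pool.Agent.H262R3.Lk.SWQ.av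
    by_cases hp : m.Prime
    · have e2 : ∀ χ : DirichletCharacter ℂ (2 ^ T), χ ((a : ZMod (2 ^ T))⁻¹) *
          (if m.Prime then χ (m : ZMod (2 ^ T)) * ((Real.log m : ℝ) : ℂ) else 0) =
          (χ ((a : ZMod (2 ^ T))⁻¹) * χ (m : ZMod (2 ^ T))) * ((Real.log m : ℝ) : ℂ) := by
        intro χ
        rw [if_pos hp, mul_assoc]
      rw [sum_congr rfl fun χ _ => e2 χ, ← sum_mul,
        DirichletCharacter.sum_char_inv_mul_char_eq ℂ hau, if_neg, zero_mul]
      intro h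
      apply hcon m hp hm.1 hm.2
      rw [← ZMod.natCast_eq_natCast_iff]
      exact h.symm
    · simp [hp]
  -- the trivial character
  have htriv := SS_triv T Q t hQ3 hQt
  have hsplit := Finset.add_sum_erase (univ : Finset (DirichletCharacter ℂ (2 ^ T)))
    (fun χ => χ ((a : ZMod (2 ^ T))⁻¹) * (SS χ t - SS χ Q)) (mem_univ 1)
  rw [hsum] at hsplit
  have hinv : IsUnit ((a : ZMod (2 ^ T))⁻¹) := by
    obtain ⟨u, hu⟩ := hau
    rw [← hu, ZMod.inv_coe_unit]
    exact u⁻¹.isUnit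
  rw [MulChar.one_apply hinv, one_mul, htriv] at hsplit
  have hnorm : ‖∑ χ ∈ (univ : Finset (DirichletCharacter ℂ (2 ^ T))).erase 1,
      χ ((a : ZMod (2 ^ T))⁻¹) * (SS χ t - SS χ Q)‖ ≤ L * (36 * Q / L ^ (A + 2)) := by
    refine (norm_sum_le _ _).trans ?_
    have hb : ∀ χ ∈ (univ : Finset (DirichletCharacter ℂ (2 ^ T))).erase 1,
        ‖χ ((a : ZMod (2 ^ T))⁻¹) * (SS χ t - SS χ Q)‖ ≤ 36 * Q / L ^ (A + 2) := by
      intro χ hχ
      have hχ1 : χ ≠ 1 := (mem_erase.1 hχ).1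
      have hc : χ.conductor ≠ 1 := fun h =>
        hχ1 ((DirichletCharacter.eq_one_iff_conductor_eq_one (χ := χ)).2 h)
      have hc0 : χ.conductor ≠ 0 := DirichletCharacter.conductor_ne_zero χ
      have hcle : χ.conductor ≤ 2 ^ T := Nat.le_of_dvd (by positivity) χ.conductor_dvd_level
      have hcle' : (χ.conductor : ℝ) ≤ L ^ 1 := by
        rw [pow_one]
        refine le_trans ?_ hT
        exact_mod_cast hcle
      rw [norm_mul, ← SS_prim T χ hχ1, ← SS_prim T χ hχ1]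
      have k1 := h1 Q hQ1 t hQt ht2 χ.conductor (by omega) hcle' χ.primitiveCharacter
        χ.primitiveCharacter_isPrimitive
      have k2 := DirichletCharacter.norm_le_one χ ((a : ZMod (2 ^ T))⁻¹)
      calc _ ≤ 1 * (36 * Q / L ^ (A + 2)) :=
            mul_le_mul k2 k1 (norm_nonneg _) zero_le_one
        _ = _ := one_mul _
    refine (sum_le_sum hb).trans ?_
    rw [sum_const, nsmul_eq_mul]
    apply mul_le_mul_of_nonneg_right _ (by positivity)
    have hcard : ((univ : Finset (DirichletCharacter ℂ (2 ^ T))).erase 1).card ≤ 2 ^ T := by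
      refine (card_erase_le).trans ?_
      rw [card_univ, ← Nat.card_eq_fintype_card,
        DirichletCharacter.card_eq_totient_of_hasEnoughRootsOfUnity ℂ (2 ^ T)]
      exact Nat.totient_le _
    refine le_trans ?_ hT
    exact_mod_cast hcard
  have hθ : Chebyshev.theta (t : ℝ) - Chebyshev.theta (Q : ℝ) ≤ L * (36 * Q / L ^ (A + 2)) := by
    have e : ((Chebyshev.theta (t : ℝ) - Chebyshev.theta (Q : ℝ) : ℝ) : ℂ) =
        -∑ χ ∈ (univ : Finset (DirichletCharacter ℂ (2 ^ T))).erase 1,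
          χ ((a : ZMod (2 ^ T))⁻¹) * (SS χ t - SS χ Q) := eq_neg_of_add_eq_zero_left hsplit
    have e2 := congrArg norm e
    rw [norm_neg, Complex.norm_real, Real.norm_eq_abs] at e2
    exact (le_abs_self _).trans (e2.le.trans hnorm)
  -- the prime number theorem
  have k1 := (abs_le.1 (h2 Q hQ2)).2
  have k2 := (abs_le.1 (h2 t (hQ2.trans hQt))).1
  have hLt : L ≤ Real.log t := Real.log_le_log hQp hQt'
  have k3 : (t : ℝ) / Real.log t ^ (A + 2) ≤ 2 * (Q / L ^ (A + 2)) := by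
    rw [← mul_div_assoc]
    apply div_le_div₀ (by positivity) ht2' (by positivity)
    exact pow_le_pow_left₀ hLp.le hLt _
  have k4 : K * ((t : ℝ) / Real.log t ^ (A + 2)) ≤ K * (2 * (Q / L ^ (A + 2))) :=
    mul_le_mul_of_nonneg_left k3 hK0.le
  rw [← hL] at k1
  have k5 : (Q : ℝ) / L ^ A ≤ L * (36 * Q / L ^ (A + 2)) + 3 * K * (Q / L ^ (A + 2)) := by
    linarith
  have k6 : (Q : ℝ) / L ^ A = L ^ 2 * (Q / L ^ (A + 2)) := by
    rw [pow_add]
    field_simp
  have k7 : 0 < (Q : ℝ) / L ^ (A + 2) := by positivity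
  have k8 : L * (36 * Q / L ^ (A + 2)) = 36 * L * (Q / L ^ (A + 2)) := by ring
  rw [k6, k8] at k5
  have k9 : L ^ 2 ≤ 36 * L + 3 * K := by
    by_contra hcon2
    push Not at hcon2
    have := mul_lt_mul_of_pos_right hcon2 k7
    linarith
  nlinarith

end Pool.Agent.Y342.PH
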